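import Pool.Agent.Helper40_Dio.FStmt

/-! # MCS (squad DIO, MP_9ca527_nt): type `s` modulo `c` -/

set_option autoImplicit false

namespace Pool.Agent.DIO.H75

open Pool.Agent.DIO

theorem mcs_two (a c s z0 x0 : ℤ) (h : s * s = a * c + 1) (m : ℕ) :
    sqg a c s z0 x0 (m + 2) = ((1 + 2 * a * c) * (sqg a c s z0 x0 m).1 +
      2 * c * s * (sqg a c s z0 x0 m).2,
      (1 + 2 * a * c) * (sqg a c s z0 x0 m).2 + 2 * a * s * (sqg a c s z0 x0 m).1) := by
  ext
  · simp only [sqg]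
    linear_combination (sqg a c s z0 x0 m).1 * h
  · simp only [sqg]
    linear_combination (sqg a c s z0 x0 m).2 * h

theorem mcs_even (a c s z0 x0 : ℤ) (h : s * s = a * c + 1) (m : ℕ) :
    ∃ k l : ℤ, (sqg a c s z0 x0 (2 * m)).1 =
      z0 + 2 * c * (a * z0 * (m : ℤ) ^ 2 + s * x0 * m) + c ^ 2 * k ∧
      (sqg a c s z0 x0 (2 * m)).2 = x0 + 2 * a * s * z0 * m + c * l := by
  induction m with
  | zero => exact ⟨0, 0, by simp [sqg], by simp [sqg]⟩
  | succ m ih =>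
    obtain ⟨k, l, h1, h2⟩ := ih
    have e : 2 * (m + 1) = 2 * m + 2 := by ring
    rw [e, mcs_two a c s z0 x0 h]
    simp only [h1, h2, Nat.cast_succ]
    refine ⟨k + 2 * a * c * k + 2 * s * l + 4 * a * (a * z0 * (m : ℤ) ^ 2 + s * x0 * m) +
      4 * a ^ 2 * z0 * m, l + 2 * a * (x0 + 2 * a * s * z0 * m + c * l) +
      2 * a * s * (2 * (a * z0 * (m : ℤ) ^ 2 + s * x0 * m) + c * k), ?_, ?_⟩
    · linear_combination (4 * c * a * z0 * m) * h
    · ring

theorem mcs_odd (a c s z0 x0 : ℤ) (h : s * s = a * c + 1) (m : ℕ) :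
    ∃ k : ℤ, (sqg a c s z0 x0 (2 * m + 1)).1 =
      s * z0 + c * (2 * a * s * z0 * m * (m + 1) + x0 * (2 * m + 1)) + c ^ 2 * k := by
  obtain ⟨k, l, h1, h2⟩ := mcs_even a c s z0 x0 h m
  simp only [sqg, h1, h2]
  exact ⟨s * k + l + 2 * a * x0 * m, by linear_combination (2 * c * x0 * m) * h⟩

theorem mcs : McsStatement := by
  rintro a b c r s t g u v w x y z ε μ ν hN ⟨hε, -, h1, h2⟩
  have hs : (s : ℤ) * s = a * c + 1 := by exact_mod_cast hN.hs
  have ht : (t : ℤ) * t = b * c + 1 := by exact_mod_cast hN.ht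
  have hr : (r : ℤ) * r = a * b + 1 := by exact_mod_cast hN.hr
  have hw : (w : ℤ) = g * r + u * v := by exact_mod_cast hN.w_eq
  have hw' : (w : ℤ) + s * t = c * r := by exact_mod_cast hN.w_eq'
  have hc : (c : ℤ) = a + b + g + 2 * a * b * g + 2 * (r * (u * v)) := by exact_mod_cast hN.hc
  have hc0 : (c : ℤ) ≠ 0 := by
    have := hN.c_gt
    have : 0 < c := by omega
    exact_mod_cast this.ne'
  obtain ⟨k, hk⟩ := mcs_odd (a : ℤ) c s ε 1 hs μ
  obtain ⟨k', l', hk', -⟩ := mcs_even (b : ℤ) c t (ε * s) r ht ν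
  rw [h1] at hk
  rw [h2] at hk'
  simp only at hk hk'
  have h3 : (2 * a * s * ε * μ * (μ + 1) + (2 * μ + 1) - 2 * (b * (ε * s) * (ν : ℤ) ^ 2 + t * r * ν) : ℤ) =
      c * (k' - k) := by
    apply mul_left_cancel₀ hc0
    linear_combination hk' - hk
  unfold relS
  have h4 : (2 * r * s * t : ℤ) = 2 * c * (r * r) - (c - a - b + g) := by
    have e1 : (s * t : ℤ) = c * r - w := by linear_combination hw'
    have e2 : (2 * r * w : ℤ) = c - a - b + g := by
      rw [hw]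
      linear_combination (2 * g) * hr - hc
    linear_combination (2 * r) * e1 - e2
  refine ⟨s * (k' - k) + (2 * (r * r) - 1) * ν - 2 * a * a * ε * μ * (μ + 1) +
    2 * a * b * ε * (ν : ℤ) ^ 2, ?_⟩
  linear_combination s * h3 + ν * h4 - (2 * a * ε * μ * (μ + 1) - 2 * b * ε * (ν : ℤ) ^ 2) * hs

end Pool.Agent.DIO.H75
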